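import Pool.Agent.Run7.h19.Final

/-!
# Ring isomorphism implies *-isomorphism when the cycles are disjoint

Let `K` be a field with involution, `E` a countable graph (infinite emitters, sinks and infinitely
many vertices are allowed) in which every vertex emits at most one edge lying on a cycle, and `F`
an arbitrary graph. If `L_K(E)` and `L_K(F)` are isomorphic as rings, then they are isomorphic as
`*`-algebras. The problem is the case where `K` is the field of complex numbers.
-/

namespace Pool.Agent.Results.MP_1b7a44_al.DisjointCycles

open Pool.Agent.Helper665_GA

/-- Suppose that every vertex of the countable graph `E` emits at most one edge from whose range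
one can return to its source, i.e. distinct cycles of `E` are disjoint. If the rings `L_K(E)` and
`L_K(F)` are isomorphic, then there is an isomorphism of `K`-algebras `L_K(E) → L_K(F)` which
commutes with the involutions. -/
theorem result (K : Type) [Field K] [StarRing K] (E F : Graph) [Countable E.V] [Countable E.E]
    (hE : ∀ e f : E.E, E.src e = E.src f → Relation.ReflTransGen E.Adj (E.rng e) (E.src e) →
      Relation.ReflTransGen E.Adj (E.rng f) (E.src f) → e = f)
    (h : Nonempty (Leavitt K E ≃+* Leavitt K F)) :
    ∃ f : Leavitt K E →ₙₐ[K] Leavitt K F, Function.Bijective f ∧
      ∀ x, f (leavittStar K E x) = leavittStar K F (f x) :=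
  Run7.h19.leavitt_star_iso hE h

end Pool.Agent.Results.MP_1b7a44_al.DisjointCycles
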